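import Mathlib

/-!
# Self-maps of the unit disc with a fixed point and a given multiplier
-/

set_option autoImplicit false

namespace Pool.Agent.Y544.HD

open Metric Set Filter

/-- Moebius maps -/
noncomputable def mu (a x : ℂ) : ℂ := (x - a) / (1 - (starRingEnd ℂ) a * x)

theorem mu_aux {a x : ℂ} (ha : ‖a‖ < 1) (hx : ‖x‖ < 1) : 1 - (starRingEnd ℂ) a * x ≠ 0 := by
  intro h
  have h1 : (starRingEnd ℂ) a * x = 1 := (sub_eq_zero.1 h).symm
  have h2 : ‖(starRingEnd ℂ) a * x‖ = 1 := by rw [h1]; simp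
  rw [norm_mul, Complex.norm_conj] at h2
  have h3 : ‖a‖ * ‖x‖ ≤ ‖a‖ * 1 := mul_le_mul_of_nonneg_left hx.le (norm_nonneg _)
  linarith

theorem norm_mu {a x : ℂ} (ha : ‖a‖ < 1) (hx : ‖x‖ < 1) : ‖mu a x‖ < 1 := by
  unfold mu
  rw [norm_div, div_lt_one (norm_pos_iff.2 (mu_aux ha hx))]
  have h1 : ‖1 - (starRingEnd ℂ) a * x‖ ^ 2 - ‖x - a‖ ^ 2 = (1 - ‖a‖ ^ 2) * (1 - ‖x‖ ^ 2) := by
    rw [← Complex.normSq_eq_norm_sq, ← Complex.normSq_eq_norm_sq, ← Complex.normSq_eq_norm_sq,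
      ← Complex.normSq_eq_norm_sq, Complex.normSq_apply, Complex.normSq_apply,
      Complex.normSq_apply, Complex.normSq_apply]
    simp
    ring
  have h2 : 0 < (1 - ‖a‖ ^ 2) * (1 - ‖x‖ ^ 2) := by
    have h3 := norm_nonneg a
    have h4 := norm_nonneg x
    have h5 : 0 < 1 - ‖a‖ ^ 2 := by nlinarith
    have h6 : 0 < 1 - ‖x‖ ^ 2 := by nlinarith
    positivity
  have h3 : ‖x - a‖ ^ 2 < ‖1 - (starRingEnd ℂ) a * x‖ ^ 2 := by linarith
  exact lt_of_pow_lt_pow_left₀ 2 (norm_nonneg _) h3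

theorem hasDerivAt_mu {a x : ℂ} (ha : ‖a‖ < 1) (hx : ‖x‖ < 1) :
    HasDerivAt (mu a) ((1 * (1 - (starRingEnd ℂ) a * x) - (x - a) * (-((starRingEnd ℂ) a * 1))) /
      (1 - (starRingEnd ℂ) a * x) ^ 2) x := by
  have h1 : HasDerivAt (fun x : ℂ => x - a) 1 x := (hasDerivAt_id x).sub_const a
  have h2 : HasDerivAt (fun x : ℂ => 1 - (starRingEnd ℂ) a * x) (-((starRingEnd ℂ) a * 1)) x :=
    ((hasDerivAt_id x).const_mul _).const_sub 1
  exact h1.div h2 (mu_aux ha hx)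

theorem exists_selfmap {z t : ℂ} (hz : ‖z‖ < 1) (ht : ‖t‖ ≤ 1) : ∃ g : ℂ → ℂ,
    DifferentiableOn ℂ g (ball 0 1) ∧ MapsTo g (ball 0 1) (ball 0 1) ∧ g z = z ∧
      HasDerivAt g t z := by
  have hz' : ‖-z‖ < 1 := by rwa [norm_neg]
  have htm : ∀ x : ℂ, ‖x‖ < 1 → ‖t * mu z x‖ < 1 := by
    intro x hx
    rw [norm_mul]
    have h1 := norm_mu hz hx
    calc ‖t‖ * ‖mu z x‖ ≤ 1 * ‖mu z x‖ := mul_le_mul_of_nonneg_right ht (norm_nonneg _)
      _ < 1 := by linarith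
  have h0 : mu z z = 0 := by unfold mu; simp
  refine ⟨fun x => mu (-z) (t * mu z x), fun x hx => ?_, fun x hx => ?_, ?_, ?_⟩
  · rw [mem_ball_zero_iff] at hx
    have h1 := (hasDerivAt_mu hz' (htm x hx)).comp x ((hasDerivAt_mu hz hx).const_mul t)
    exact h1.differentiableAt.differentiableWithinAt
  · rw [mem_ball_zero_iff] at hx ⊢
    exact norm_mu hz' (htm x hx)
  · dsimp only
    rw [h0, mul_zero]
    unfold mu
    simp
  · have h1 := (hasDerivAt_mu hz' (htm z hz)).comp z ((hasDerivAt_mu hz hz).const_mul t)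
    have h2 : (1 * (1 - (starRingEnd ℂ) (-z) * (t * mu z z)) -
        (t * mu z z - -z) * (-((starRingEnd ℂ) (-z) * 1))) /
        (1 - (starRingEnd ℂ) (-z) * (t * mu z z)) ^ 2 *
        (t * ((1 * (1 - (starRingEnd ℂ) z * z) - (z - z) * (-((starRingEnd ℂ) z * 1))) /
        (1 - (starRingEnd ℂ) z * z) ^ 2)) = t := by
      have h3 := mu_aux hz hz
      rw [h0]
      obtain ⟨w, hw⟩ : ∃ w, w = 1 - (starRingEnd ℂ) z * z := ⟨_, rfl⟩
      have h4 : 1 * (1 - (starRingEnd ℂ) (-z) * (t * 0)) -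
          (t * 0 - -z) * (-((starRingEnd ℂ) (-z) * 1)) = w := by
        rw [hw, map_neg]
        ring
      have h5 : 1 - (starRingEnd ℂ) (-z) * (t * 0) = 1 := by ring
      have h6 : 1 * (1 - (starRingEnd ℂ) z * z) - (z - z) * (-((starRingEnd ℂ) z * 1)) = w := by
        rw [hw]
        ring
      rw [← hw] at h3
      rw [h4, h5, h6, ← hw]
      field_simp
    rw [h2] at h1
    exact h1

end Pool.Agent.Y544.HD
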