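import Pool.Agent.Y544.HD.Landau
import Pool.Agent.Y544.HD.Moeb

/-!
# The ring of the analytic functions on the unit disc: the constants are first-order definable
-/

set_option autoImplicit false

namespace Pool.Agent.Y544.HD

open Metric Set Filter

section ring

variable {R : Type*} [CommRing R]

/-- `x` is a unit -/
def IsU (x : R) : Prop := ∃ y, x * y = 1

/-- `p` is irreducible -/
def Irr (p : R) : Prop := ¬ IsU p ∧ ∀ a b, p = a * b → IsU a ∨ IsU b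

/-- For the ring of the analytic functions on the disc: `|f| ≤ 1` at the zero of `p`. -/
def Phi (f p : R) : Prop := ∀ B, IsU (1 + 1 + B * p) → IsU (1 + B * p) →
  ∃ B' C, B' = f * B + C * p ∧ IsU (1 + 1 + B' * p) ∧ IsU (1 + B' * p)

/-- For the ring of the analytic functions on the disc: `f` is a constant of modulus one. -/
def Uni (f : R) : Prop := ∃ g, f * g = 1 ∧ ∀ p, Irr p → Phi f p ∧ Phi g p

/-- For the ring of the analytic functions on the disc: `f` is constant. -/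
def Con (f : R) : Prop := ∃ s t, Uni s ∧ Uni t ∧ (f = s + t ∨ f * (s + t) = 1)

end ring

/-- `S` is the ring of the analytic functions on the unit disc. -/
def Hol (S : Subring (ball (0 : ℂ) 1 → ℂ)) : Prop :=
  ∀ f : ball (0 : ℂ) 1 → ℂ, f ∈ S ↔ ∃ g : ℂ → ℂ, AnalyticOnNhd ℂ g (ball (0 : ℂ) 1) ∧
    ∀ z : ball (0 : ℂ) 1, f z = g z

variable {S : Subring (ball (0 : ℂ) 1 → ℂ)}

theorem Hol.ext (hS : Hol S) (x : S) : ∃ g : ℂ → ℂ, DifferentiableOn ℂ g (ball 0 1) ∧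
    ∀ z : ball (0 : ℂ) 1, x.1 z = g z := by
  obtain ⟨g, hg, h⟩ := (hS x.1).1 x.2
  exact ⟨g, hg.differentiableOn, h⟩

theorem Hol.mk (hS : Hol S) {g : ℂ → ℂ} (hg : DifferentiableOn ℂ g (ball 0 1)) :
    ∃ x : S, ∀ z : ball (0 : ℂ) 1, x.1 z = g z :=
  ⟨⟨fun z => g z, (hS _).2 ⟨g, hg.analyticOnNhd isOpen_ball, fun _ => rfl⟩⟩, fun _ => rfl⟩

theorem s_ext {x y : S} (h : ∀ z, x.1 z = y.1 z) : x = y := Subtype.ext (funext h)

theorem isU_iff (hS : Hol S) (x : S) : IsU x ↔ ∀ z, x.1 z ≠ 0 := by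
  constructor
  · rintro ⟨y, hy⟩ z hz
    have h1 : x.1 z * y.1 z = 1 := by
      have := congrFun (congrArg Subtype.val hy) z
      exact this
    rw [hz, zero_mul] at h1
    exact zero_ne_one h1
  · intro h
    obtain ⟨g, hg, hgx⟩ := hS.ext x
    have h0 : ∀ z ∈ ball (0 : ℂ) 1, g z ≠ 0 := by
      intro z hz
      rw [← hgx ⟨z, hz⟩]
      exact h ⟨z, hz⟩
    obtain ⟨y, hy⟩ := hS.mk (hg.inv h0)
    refine ⟨y, s_ext fun z => ?_⟩
    show x.1 z * y.1 z = 1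
    rw [hy, hgx, Pi.inv_apply]
    exact mul_inv_cancel₀ (h0 z z.2)

theorem factor (hS : Hol S) (x : S) (z₀ : ball (0 : ℂ) 1) (h : x.1 z₀ = 0) :
    ∃ y : S, ∀ z : ball (0 : ℂ) 1, x.1 z = (z.1 - z₀.1) * y.1 z := by
  obtain ⟨g, hg, hgx⟩ := hS.ext x
  obtain ⟨y, hy⟩ := hS.mk ((Complex.differentiableOn_dslope (isOpen_ball.mem_nhds z₀.2)).2 hg)
  refine ⟨y, fun z => ?_⟩
  rw [hy, hgx]
  have h1 := sub_smul_dslope g z₀.1 z.1
  rw [smul_eq_mul] at h1
  rw [h1, ← hgx z₀, h, sub_zero]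

theorem exists_lin (hS : Hol S) (z₀ : ball (0 : ℂ) 1) :
    ∃ p : S, ∀ z : ball (0 : ℂ) 1, p.1 z = z.1 - z₀.1 :=
  hS.mk (g := fun x => x - z₀.1) (differentiableOn_id.sub_const _)

theorem not_isU_lin (hS : Hol S) {z₀ : ball (0 : ℂ) 1} {p : S}
    (hp : ∀ z : ball (0 : ℂ) 1, p.1 z = z.1 - z₀.1) : ¬ IsU p := by
  intro h
  refine (isU_iff hS p).1 h z₀ ?_
  rw [hp, sub_self]

theorem irr_aux (hS : Hol S) {z₀ : ball (0 : ℂ) 1} {p a b : S}
    (hp : ∀ z : ball (0 : ℂ) 1, p.1 z = z.1 - z₀.1) (hab : p = a * b) (ha : a.1 z₀ = 0) :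
    IsU b := by
  obtain ⟨α, hα, hα'⟩ := hS.ext a
  obtain ⟨β, hβ, hβ'⟩ := hS.ext b
  have h1 : ∀ z ∈ ball (0 : ℂ) 1, α z * β z = z - z₀.1 := by
    intro z hz
    have h2 := hp ⟨z, hz⟩
    rw [hab] at h2
    have h3 : a.1 ⟨z, hz⟩ * b.1 ⟨z, hz⟩ = z - z₀.1 := h2
    rwa [hα', hβ'] at h3
  rw [isU_iff hS]
  intro z hz
  rw [hβ'] at hz
  by_cases hzz : z = z₀
  · subst hzz
    have hd : ∀ {φ : ℂ → ℂ}, DifferentiableOn ℂ φ (ball 0 1) → HasDerivAt φ (deriv φ z.1) z.1 :=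
      fun hφ => ((hφ z.1 z.2).differentiableAt (isOpen_ball.mem_nhds z.2)).hasDerivAt
    have h2 := (hd hα).mul (hd hβ)
    have h3 : HasDerivAt (fun x => x - z.1) 1 z.1 := (hasDerivAt_id _).sub_const _
    have h4 : (α * β) =ᶠ[nhds z.1] fun x => x - z.1 := by
      filter_upwards [isOpen_ball.mem_nhds z.2] with x hx
      exact h1 x hx
    have h5 := h2.unique (h3.congr_of_eventuallyEq h4)
    rw [hz, ← hα', ha] at h5
    simp at h5
  · have h2 := h1 z.1 z.2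
    rw [hz, mul_zero] at h2
    exact hzz (Subtype.ext (sub_eq_zero.1 h2.symm))

theorem irr_lin (hS : Hol S) {z₀ : ball (0 : ℂ) 1} {p : S}
    (hp : ∀ z : ball (0 : ℂ) 1, p.1 z = z.1 - z₀.1) : Irr p := by
  refine ⟨not_isU_lin hS hp, fun a b hab => ?_⟩
  have h1 : a.1 z₀ * b.1 z₀ = 0 := by
    have h2 := hp z₀
    rw [hab, sub_self] at h2
    exact h2
  rcases mul_eq_zero.1 h1 with h | h
  · exact Or.inr (irr_aux hS hp hab h)
  · exact Or.inl (irr_aux hS hp (hab.trans (mul_comm a b)) h)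

theorem irr_form (hS : Hol S) {p : S} (hp : Irr p) : ∃ (z₀ : ball (0 : ℂ) 1) (u : S), IsU u ∧
    ∀ z : ball (0 : ℂ) 1, p.1 z = (z.1 - z₀.1) * u.1 z := by
  obtain ⟨h1, h2⟩ := hp
  rw [isU_iff hS] at h1
  push Not at h1
  obtain ⟨z₀, hz₀⟩ := h1
  obtain ⟨u, hu⟩ := factor hS p z₀ hz₀
  obtain ⟨l, hl⟩ := exists_lin hS z₀
  refine ⟨z₀, u, ?_, hu⟩
  refine (h2 l u (s_ext fun z => ?_)).resolve_left (not_isU_lin hS hl)
  rw [hu]
  show _ = l.1 z * u.1 z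
  rw [hl]

theorem phi_of_le (hS : Hol S) {p f u : S} {z₀ : ball (0 : ℂ) 1} (hu : IsU u)
    (hp : ∀ z : ball (0 : ℂ) 1, p.1 z = (z.1 - z₀.1) * u.1 z) (hf : ‖f.1 z₀‖ ≤ 1) : Phi f p := by
  intro B h1 h2
  rw [isU_iff hS] at h1 h2
  obtain ⟨b, hb, hB⟩ := hS.ext B
  obtain ⟨w, hw, hU⟩ := hS.ext u
  obtain ⟨v, hv⟩ := id hu
  rw [isU_iff hS] at hu
  have hw0 : ∀ x ∈ ball (0 : ℂ) 1, w x ≠ 0 := by
    intro x hx
    rw [← hU ⟨x, hx⟩]
    exact hu _
  obtain ⟨g, hg, hgm, hgz, hgd⟩ := exists_selfmap (z := z₀.1) (t := f.1 z₀)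
    (mem_ball_zero_iff.1 z₀.2) hf
  obtain ⟨e, he⟩ : ∃ e, e = dslope g z₀.1 := ⟨_, rfl⟩
  have hed : DifferentiableOn ℂ e (ball 0 1) := by
    rw [he]
    exact (Complex.differentiableOn_dslope (isOpen_ball.mem_nhds z₀.2)).2 hg
  have hez : e z₀.1 = f.1 z₀ := by rw [he, dslope_same, hgd.deriv]
  have hes : ∀ x, (x - z₀.1) * e x = g x - z₀.1 := by
    intro x
    have h3 := sub_smul_dslope g z₀.1 x
    rw [smul_eq_mul, hgz] at h3
    rw [he, h3]
  obtain ⟨B', hB'⟩ := hS.mk (g := fun x => e x * (b (g x) * w (g x)) / w x)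
    ((hed.mul ((hb.comp hg hgm).mul (hw.comp hg hgm))).div hw hw0)
  have hz0 : (B' - f * B).1 z₀ = 0 := by
    show B'.1 z₀ - f.1 z₀ * B.1 z₀ = 0
    rw [hB', hB, hgz, hez]
    have := hw0 z₀.1 z₀.2
    field_simp
    ring
  obtain ⟨d, hd⟩ := factor hS _ z₀ hz0
  have hval : ∀ z : ball (0 : ℂ) 1, B'.1 z * p.1 z =
      B.1 ⟨g z.1, hgm z.2⟩ * p.1 ⟨g z.1, hgm z.2⟩ := by
    intro z
    rw [hB', hp, hp, hB, hU, hU]
    have h3 := hes z.1
    have := hw0 z.1 z.2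
    show e z.1 * (b (g z.1) * w (g z.1)) / w z.1 * ((z.1 - z₀.1) * w z.1) =
      b (g z.1) * ((g z.1 - z₀.1) * w (g z.1))
    rw [← h3]
    field_simp
  refine ⟨B', d * v, s_ext fun z => ?_, ?_, ?_⟩
  · have h3 : B'.1 z - f.1 z * B.1 z = (z.1 - z₀.1) * d.1 z := hd z
    have h4 : u.1 z * v.1 z = 1 := by
      have := congrFun (congrArg Subtype.val hv) z
      exact this
    show B'.1 z = f.1 z * B.1 z + d.1 z * v.1 z * p.1 z
    rw [hp]
    linear_combination h3 - d.1 z * (z.1 - z₀.1) * h4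
  · rw [isU_iff hS]
    intro z
    have h3 := h1 ⟨g z.1, hgm z.2⟩
    show 1 + 1 + B'.1 z * p.1 z ≠ 0
    rw [hval]
    exact h3
  · rw [isU_iff hS]
    intro z
    have h3 := h2 ⟨g z.1, hgm z.2⟩
    show 1 + B'.1 z * p.1 z ≠ 0
    rw [hval]
    exact h3

theorem le_of_phi (hS : Hol S) {l f : S} {z₀ : ball (0 : ℂ) 1}
    (hl : ∀ z : ball (0 : ℂ) 1, l.1 z = z.1 - z₀.1) (h : Phi f l) : ‖f.1 z₀‖ ≤ 1 := by
  by_contra hcon
  push Not at hcon
  have hz1 : ‖z₀.1‖ < 1 := mem_ball_zero_iff.1 z₀.2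
  -- the sequence
  have hseq : ∀ n : ℕ, ∃ B : S, IsU (1 + 1 + B * l) ∧ IsU (1 + B * l) ∧
      B.1 z₀ = f.1 z₀ ^ n / 4 := by
    intro n
    induction n with
    | zero =>
      obtain ⟨B, hB⟩ := hS.mk (g := fun _ => 1 / 4) (differentiableOn_const _)
      have hb : ∀ z : ball (0 : ℂ) 1, ‖B.1 z * l.1 z‖ ≤ 1 / 2 := by
        intro z
        rw [hB, hl, norm_mul]
        have h1 : ‖z.1 - z₀.1‖ ≤ 2 := by
          have h2 := norm_sub_le z.1 z₀.1
          have h3 : ‖z.1‖ < 1 := mem_ball_zero_iff.1 z.2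
          linarith
        have h2 : ‖(1 / 4 : ℂ)‖ = 1 / 4 := by simp
        rw [h2]
        linarith
      refine ⟨B, ?_, ?_, ?_⟩
      · rw [isU_iff hS]
        intro z hz
        have h1 : 1 + 1 + B.1 z * l.1 z = 0 := hz
        have h2 : B.1 z * l.1 z = -2 := by linear_combination h1
        have h3 := hb z
        rw [h2] at h3
        norm_num at h3
      · rw [isU_iff hS]
        intro z hz
        have h1 : 1 + B.1 z * l.1 z = 0 := hz
        have h2 : B.1 z * l.1 z = -1 := by linear_combination h1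
        have h3 := hb z
        rw [h2] at h3
        norm_num at h3
      · rw [hB, pow_zero]
    | succ n ih =>
      obtain ⟨B, h1, h2, h3⟩ := ih
      obtain ⟨B', C, h4, h5, h6⟩ := h B h1 h2
      refine ⟨B', h5, h6, ?_⟩
      rw [h4]
      show f.1 z₀ * B.1 z₀ + C.1 z₀ * l.1 z₀ = _
      rw [h3, hl]
      ring
  obtain ⟨C, hC⟩ := landau
  obtain ⟨r, hr⟩ : ∃ r, r = 1 - ‖z₀.1‖ := ⟨_, rfl⟩
  have hr0 : 0 < r := by rw [hr]; linarith
  have hsub : ball z₀.1 r ⊆ ball (0 : ℂ) 1 := by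
    refine ball_subset_ball' ?_
    rw [dist_zero_right, hr]
    linarith
  have hbound : ∀ n : ℕ, ‖f.1 z₀‖ ^ n ≤ 4 * (C / r) := by
    intro n
    obtain ⟨B, h1, h2, h3⟩ := hseq n
    obtain ⟨b, hb, hB⟩ := hS.ext B
    rw [isU_iff hS] at h1 h2
    have hd : HasDerivAt (fun x => 2 + b x * (x - z₀.1)) (b z₀.1) z₀.1 := by
      have hb1 : HasDerivAt b (deriv b z₀.1) z₀.1 :=
        ((hb z₀.1 z₀.2).differentiableAt (isOpen_ball.mem_nhds z₀.2)).hasDerivAt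
      have h4 := (hb1.mul ((hasDerivAt_id z₀.1).sub_const z₀.1)).const_add 2
      simp only [id, sub_self, mul_zero, zero_add, mul_one] at h4
      exact h4
    have h4 := hC (fun x => 2 + b x * (x - z₀.1)) z₀.1 r hr0
      (((hb.mul (differentiableOn_id.sub_const _)).const_add 2).mono hsub)
      (fun x hx => by
        have h5 := h1 ⟨x, hsub hx⟩
        have h6 : 1 + 1 + B.1 ⟨x, hsub hx⟩ * l.1 ⟨x, hsub hx⟩ ≠ 0 := h5
        rw [hB, hl] at h6
        intro h7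
        apply h6
        linear_combination h7)
      (fun x hx => by
        have h5 := h2 ⟨x, hsub hx⟩
        have h6 : 1 + B.1 ⟨x, hsub hx⟩ * l.1 ⟨x, hsub hx⟩ ≠ 0 := h5
        rw [hB, hl] at h6
        intro h7
        apply h6
        linear_combination h7)
      (by simp)
    rw [hd.deriv, ← hB z₀, h3, norm_div, norm_pow] at h4
    have h5 : ‖(4 : ℂ)‖ = 4 := by simp
    rw [h5] at h4
    linarith
  obtain ⟨n, hn⟩ := pow_unbounded_of_one_lt (4 * (C / r)) hcon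
  exact absurd (hbound n) (not_le.2 hn)

theorem uni_iff (hS : Hol S) (f : S) : Uni f ↔ ∃ c : ℂ, ‖c‖ = 1 ∧ ∀ z, f.1 z = c := by
  constructor
  · rintro ⟨g, hfg, h⟩
    have h1 : ∀ z : ball (0 : ℂ) 1, ‖f.1 z‖ = 1 := by
      intro z
      obtain ⟨l, hl⟩ := exists_lin hS z
      obtain ⟨h2, h3⟩ := h l (irr_lin hS hl)
      have h4 := le_of_phi hS hl h2
      have h5 := le_of_phi hS hl h3
      have h6 : f.1 z * g.1 z = 1 := by
        have := congrFun (congrArg Subtype.val hfg) z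
        exact this
      have h7 : ‖f.1 z‖ * ‖g.1 z‖ = 1 := by rw [← norm_mul, h6, norm_one]
      have h8 := norm_nonneg (f.1 z)
      nlinarith
    obtain ⟨F, hF, hFf⟩ := hS.ext f
    have h0 : (0 : ℂ) ∈ ball (0 : ℂ) 1 := mem_ball_self one_pos
    have h2 := Complex.eqOn_of_isPreconnected_of_isMaxOn_norm (convex_ball (0 : ℂ) 1).isPreconnected
      isOpen_ball hF h0 (by
        intro x hx
        show ‖F x‖ ≤ ‖F 0‖
        rw [← hFf ⟨x, hx⟩, ← hFf ⟨0, h0⟩, h1, h1])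
    refine ⟨F 0, ?_, fun z => ?_⟩
    · rw [← hFf ⟨0, h0⟩, h1]
    · rw [hFf]
      exact h2 z.2
  · rintro ⟨c, hc, hf⟩
    have hc0 : c ≠ 0 := by
      intro h
      rw [h, norm_zero] at hc
      exact zero_ne_one hc
    obtain ⟨g, hg⟩ := hS.mk (g := fun _ => c⁻¹) (differentiableOn_const _)
    refine ⟨g, s_ext fun z => ?_, fun p hp => ?_⟩
    · show f.1 z * g.1 z = 1
      rw [hf, hg, mul_inv_cancel₀ hc0]
    · obtain ⟨z₀, u, hu, hpu⟩ := irr_form hS hp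
      refine ⟨phi_of_le hS hu hpu ?_, phi_of_le hS hu hpu ?_⟩
      · rw [hf, hc]
      · rw [hg, norm_inv, hc, inv_one]

/-- a complex number of modulus at most two is the sum of two numbers of modulus one -/
theorem sum_two {c : ℂ} (hc : ‖c‖ ≤ 2) : ∃ s t : ℂ, ‖s‖ = 1 ∧ ‖t‖ = 1 ∧ c = s + t := by
  obtain ⟨θ, hθ⟩ : ∃ θ : ℝ, Real.cos θ = ‖c‖ / 2 :=
    ⟨Real.arccos (‖c‖ / 2), Real.cos_arccos (by linarith [norm_nonneg c]) (by linarith)⟩
  obtain ⟨w, hw, hcw⟩ : ∃ w : ℂ, ‖w‖ = 1 ∧ c = ‖c‖ * w :=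
    ⟨Complex.exp (Complex.arg c * Complex.I), Complex.norm_exp_ofReal_mul_I _,
      (Complex.norm_mul_exp_arg_mul_I c).symm⟩
  refine ⟨w * Complex.exp (θ * Complex.I), w * Complex.exp ((-θ : ℝ) * Complex.I), ?_, ?_, ?_⟩
  · rw [norm_mul, hw, Complex.norm_exp_ofReal_mul_I, one_mul]
  · rw [norm_mul, hw, Complex.norm_exp_ofReal_mul_I, one_mul]
  · rw [← mul_add]
    have h1 : Complex.exp (θ * Complex.I) + Complex.exp ((-θ : ℝ) * Complex.I) =
        2 * Complex.cos θ := by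
      rw [Complex.cos]
      push_cast
      ring_nf
    rw [h1, ← Complex.ofReal_cos, hθ]
    rw [hcw]
    push_cast
    rw [norm_mul, hw]
    simp
    ring

theorem con_iff (hS : Hol S) (f : S) : Con f ↔ ∃ c : ℂ, ∀ z, f.1 z = c := by
  constructor
  · rintro ⟨s, t, hs, ht, h⟩
    obtain ⟨a, -, ha⟩ := (uni_iff hS s).1 hs
    obtain ⟨b, -, hb⟩ := (uni_iff hS t).1 ht
    rcases h with h | h
    · refine ⟨a + b, fun z => ?_⟩
      rw [h]
      show s.1 z + t.1 z = a + b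
      rw [ha, hb]
    · refine ⟨(a + b)⁻¹, fun z => ?_⟩
      have h1 : f.1 z * (s.1 z + t.1 z) = 1 := by
        have := congrFun (congrArg Subtype.val h) z
        exact this
      rw [ha, hb] at h1
      exact eq_inv_of_mul_eq_one_left h1
  · rintro ⟨c, hc⟩
    have key : ∀ d : ℂ, ‖d‖ ≤ 2 → ∃ s t : S, Uni s ∧ Uni t ∧ ∀ z, s.1 z + t.1 z = d := by
      intro d hd
      obtain ⟨a, b, ha, hb, hab⟩ := sum_two hd
      obtain ⟨s, hs⟩ := hS.mk (g := fun _ => a) (differentiableOn_const _)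
      obtain ⟨t, ht⟩ := hS.mk (g := fun _ => b) (differentiableOn_const _)
      exact ⟨s, t, (uni_iff hS s).2 ⟨a, ha, hs⟩, (uni_iff hS t).2 ⟨b, hb, ht⟩, fun z => by
        rw [hs, ht, hab]⟩
    by_cases h : ‖c‖ ≤ 2
    · obtain ⟨s, t, h1, h2, h3⟩ := key c h
      refine ⟨s, t, h1, h2, Or.inl (s_ext fun z => ?_)⟩
      rw [hc]
      exact (h3 z).symm
    · push Not at h
      have hc0 : c ≠ 0 := by
        intro h0
        rw [h0, norm_zero] at h
        linarith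
      obtain ⟨s, t, h1, h2, h3⟩ := key c⁻¹ (by
        rw [norm_inv]
        have : ‖c‖⁻¹ ≤ 1 := inv_le_one_of_one_le₀ (by linarith)
        linarith)
      refine ⟨s, t, h1, h2, Or.inr (s_ext fun z => ?_)⟩
      show f.1 z * (s.1 z + t.1 z) = 1
      rw [hc, h3, mul_inv_cancel₀ hc0]

end Pool.Agent.Y544.HD
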