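import Mathlib
import Pool.Agent.Y544.HD.Ring

/-!
# The formula
-/

set_option autoImplicit false

namespace Pool.Agent.Y544.HD

open FirstOrder FirstOrder.Language FirstOrder.Ring

/-- existential quantification over the variable `i` -/
noncomputable def exN (i : ℕ) (φ : Language.ring.Formula ℕ) : Language.ring.Formula ℕ :=
  BoundedFormula.ex (n := 0) (BoundedFormula.relabel (n := 1) (k := 0)
    (fun j : ℕ => if j = i then Sum.inr (0 : Fin 1) else Sum.inl j) φ)

/-- universal quantification over the variable `i` -/
noncomputable def allN (i : ℕ) (φ : Language.ring.Formula ℕ) : Language.ring.Formula ℕ :=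
  (exN i φ.not).not

theorem realize_exN {M : Type*} [Language.ring.Structure M] (i : ℕ)
    (φ : Language.ring.Formula ℕ) (v : ℕ → M) :
    (exN i φ).Realize v ↔ ∃ a, φ.Realize (Function.update v i a) := by
  unfold exN Formula.Realize
  rw [BoundedFormula.realize_ex]
  refine exists_congr fun a => ?_
  rw [BoundedFormula.realize_relabel]
  have h1 : (Sum.elim v (Fin.snoc (default : Fin 0 → M) a ∘ Fin.castAdd 0) ∘
      fun j : ℕ => if j = i then Sum.inr (0 : Fin 1) else Sum.inl j) = Function.update v i a := by
    funext j
    by_cases h : j = i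
    · subst h
      simp only [Function.comp_apply, if_true, Sum.elim_inr, Function.update_self]
      rfl
    · simp only [Function.comp_apply, if_neg h, Sum.elim_inl, Function.update_of_ne h]
  rw [h1]
  exact iff_of_eq (congrArg _ (Subsingleton.elim _ _))

theorem realize_allN {M : Type*} [Language.ring.Structure M] (i : ℕ)
    (φ : Language.ring.Formula ℕ) (v : ℕ → M) :
    (allN i φ).Realize v ↔ ∀ a, φ.Realize (Function.update v i a) := by
  unfold allN
  rw [Formula.realize_not, realize_exN]
  simp only [Formula.realize_not, not_exists, not_not]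

/-- variables -/
noncomputable def X (i : ℕ) : Language.ring.Term ℕ := Term.var i

/-- the term is a unit -/
noncomputable def isUF (t : Language.ring.Term ℕ) : Language.ring.Formula ℕ :=
  exN 11 ((t * X 11).equal 1)

/-- the formula for `Phi` -/
noncomputable def PhiF (a b : ℕ) : Language.ring.Formula ℕ :=
  allN 10 ((isUF (1 + 1 + X 10 * X b)).imp ((isUF (1 + X 10 * X b)).imp
    (exN 12 (exN 13 ((X 12).equal (X a * X 10 + X 13 * X b) ⊓
      (isUF (1 + 1 + X 12 * X b) ⊓ isUF (1 + X 12 * X b)))))))

/-- the formula for `Irr` -/
noncomputable def IrrF (b : ℕ) : Language.ring.Formula ℕ :=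
  (isUF (X b)).not ⊓ allN 14 (allN 15 (((X b).equal (X 14 * X 15)).imp
    (isUF (X 14) ⊔ isUF (X 15))))

/-- the formula for `Uni` -/
noncomputable def UniF (a : ℕ) : Language.ring.Formula ℕ :=
  exN 16 ((X a * X 16).equal 1 ⊓ allN 17 ((IrrF 17).imp (PhiF a 17 ⊓ PhiF 16 17)))

/-- the formula for `Con` -/
noncomputable def ConF : Language.ring.Formula ℕ :=
  exN 1 (exN 2 (UniF 1 ⊓ (UniF 2 ⊓ ((X 0).equal (X 1 + X 2) ⊔ (X 0 * (X 1 + X 2)).equal 1))))

section realize

variable {M : Type*} [CommRing M] [CompatibleRing M]

theorem realize_X (i : ℕ) (v : ℕ → M) : (X i).realize v = v i := rfl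

theorem realize_isUF (t : Language.ring.Term ℕ) (v : ℕ → M) (x : M)
    (h : ∀ y, t.realize (Function.update v 11 y) = x) : (isUF t).Realize v ↔ IsU x := by
  unfold isUF IsU
  rw [realize_exN]
  refine exists_congr fun y => ?_
  rw [Formula.realize_equal, realize_mul, realize_one, h, realize_X, Function.update_self]

theorem realize_PhiF {a b : ℕ} (ha : a ≠ 10 ∧ a ≠ 11 ∧ a ≠ 12 ∧ a ≠ 13)
    (hb : b ≠ 10 ∧ b ≠ 11 ∧ b ≠ 12 ∧ b ≠ 13) (v : ℕ → M) :
    (PhiF a b).Realize v ↔ Phi (v a) (v b) := by
  obtain ⟨ha1, ha2, ha3, ha4⟩ := ha
  obtain ⟨hb1, hb2, hb3, hb4⟩ := hb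
  unfold PhiF Phi
  rw [realize_allN]
  refine forall_congr' fun B => ?_
  rw [Formula.realize_imp, Formula.realize_imp,
    realize_isUF _ _ (1 + 1 + B * v b) (fun y => by
      simp [realize_X, Function.update_of_ne, hb1, hb2]),
    realize_isUF _ _ (1 + B * v b) (fun y => by
      simp [realize_X, Function.update_of_ne, hb1, hb2])]
  refine imp_congr_right fun _ => imp_congr_right fun _ => ?_
  rw [realize_exN]
  refine exists_congr fun B' => ?_
  rw [realize_exN]
  refine exists_congr fun C => ?_
  rw [Formula.realize_inf, Formula.realize_inf, Formula.realize_equal,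
    realize_isUF _ _ (1 + 1 + B' * v b) (fun y => by
      simp [realize_X, Function.update_of_ne, hb1, hb2, hb3, hb4]),
    realize_isUF _ _ (1 + B' * v b) (fun y => by
      simp [realize_X, Function.update_of_ne, hb1, hb2, hb3, hb4])]
  have h1 : (X 12).realize (Function.update (Function.update (Function.update v 10 B) 12 B') 13 C)
      = B' := by
    simp [realize_X, Function.update_of_ne]
  have h2 : (X a * X 10 + X 13 * X b : Language.ring.Term ℕ).realize
      (Function.update (Function.update (Function.update v 10 B) 12 B') 13 C) =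
      v a * B + C * v b := by
    simp [realize_X, Function.update_of_ne, ha1, ha3, ha4, hb1, hb3, hb4]
  rw [h1, h2]

theorem realize_IrrF {b : ℕ} (hb : b ≠ 11 ∧ b ≠ 14 ∧ b ≠ 15) (v : ℕ → M) :
    (IrrF b).Realize v ↔ Irr (v b) := by
  obtain ⟨hb1, hb2, hb3⟩ := hb
  unfold IrrF Irr
  rw [Formula.realize_inf, Formula.realize_not, realize_isUF _ _ (v b) (fun y => by
      simp [realize_X, Function.update_of_ne, hb1]), realize_allN]
  refine and_congr_right fun _ => forall_congr' fun x => ?_
  rw [realize_allN]
  refine forall_congr' fun y => ?_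
  rw [Formula.realize_imp, Formula.realize_sup, Formula.realize_equal,
    realize_isUF _ _ x (fun y => by simp [realize_X, Function.update_of_ne]),
    realize_isUF _ _ y (fun y => by simp [realize_X, Function.update_of_ne])]
  have h1 : (X b).realize (Function.update (Function.update v 14 x) 15 y) = v b := by
    simp [realize_X, Function.update_of_ne, hb2, hb3]
  have h2 : (X 14 * X 15 : Language.ring.Term ℕ).realize
      (Function.update (Function.update v 14 x) 15 y) = x * y := by
    simp [realize_X, Function.update_of_ne]
  rw [h1, h2]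

theorem realize_UniF {a : ℕ} (ha : a < 10) (v : ℕ → M) :
    (UniF a).Realize v ↔ Uni (v a) := by
  unfold UniF Uni
  rw [realize_exN]
  refine exists_congr fun g => ?_
  rw [Formula.realize_inf, Formula.realize_equal, realize_allN]
  have h1 : (X a * X 16 : Language.ring.Term ℕ).realize (Function.update v 16 g) = v a * g := by
    simp [realize_X, Function.update_of_ne, show a ≠ 16 by omega]
  rw [h1, realize_one]
  refine and_congr_right fun _ => forall_congr' fun p => ?_
  rw [Formula.realize_imp, Formula.realize_inf, realize_IrrF ⟨by omega, by omega, by omega⟩,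
    realize_PhiF ⟨by omega, by omega, by omega, by omega⟩ ⟨by omega, by omega, by omega, by omega⟩,
    realize_PhiF ⟨by omega, by omega, by omega, by omega⟩ ⟨by omega, by omega, by omega, by omega⟩]
  have h2 : Function.update (Function.update v 16 g) 17 p 17 = p := Function.update_self _ _ _
  have h3 : Function.update (Function.update v 16 g) 17 p 16 = g := by
    simp [Function.update_of_ne]
  have h4 : Function.update (Function.update v 16 g) 17 p a = v a := by
    simp [Function.update_of_ne, show a ≠ 16 by omega, show a ≠ 17 by omega]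
  rw [h2, h3, h4]

theorem realize_ConF (v : ℕ → M) : ConF.Realize v ↔ Con (v 0) := by
  unfold ConF Con
  rw [realize_exN]
  refine exists_congr fun s => ?_
  rw [realize_exN]
  refine exists_congr fun t => ?_
  rw [Formula.realize_inf, Formula.realize_inf, Formula.realize_sup, Formula.realize_equal,
    Formula.realize_equal, realize_UniF (by norm_num), realize_UniF (by norm_num)]
  have h1 : Function.update (Function.update v 1 s) 2 t 1 = s := by
    simp [Function.update_of_ne]
  have h2 : Function.update (Function.update v 1 s) 2 t 2 = t := Function.update_self _ _ _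
  have h3 : (X 0).realize (Function.update (Function.update v 1 s) 2 t) = v 0 := by
    simp [realize_X, Function.update_of_ne]
  have h4 : (X 1 + X 2 : Language.ring.Term ℕ).realize
      (Function.update (Function.update v 1 s) 2 t) = s + t := by
    simp [realize_X, Function.update_of_ne]
  have h5 : (X 0 * (X 1 + X 2) : Language.ring.Term ℕ).realize
      (Function.update (Function.update v 1 s) 2 t) = v 0 * (s + t) := by
    rw [realize_mul, h3, h4]
  rw [h1, h2, h3, h4, h5, realize_one]

end realize

/-- the formula with one free variable -/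
noncomputable def conF : Language.ring.Formula (Fin 1) := ConF.relabel fun _ => 0

theorem realize_conF {M : Type*} [CommRing M] [CompatibleRing M] (f : M) :
    conF.Realize (fun _ => f) ↔ Con f := by
  unfold conF
  rw [Formula.realize_relabel, realize_ConF]
  rfl

end Pool.Agent.Y544.HD
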