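import Mathlib

/-!
# Landau's theorem

The derivative at the centre of a disc of radius `r` of an analytic function which omits `0` and
`1` and has the value `2` at the centre is at most `C / r`.
-/

set_option autoImplicit false

namespace Pool.Agent.Y544.HD

open Metric Set Filter

theorem exists_log {F : ℂ → ℂ} {c : ℂ} {r : ℝ} (hr : 0 < r)
    (hF : DifferentiableOn ℂ F (ball c r)) (h0 : ∀ x ∈ ball c r, F x ≠ 0) :
    ∃ h : ℂ → ℂ, DifferentiableOn ℂ h (ball c r) ∧ ∀ x ∈ ball c r, Complex.exp (h x) = F x := by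
  have hc : c ∈ ball c r := mem_ball_self hr
  have h1 : DifferentiableOn ℂ (fun x => deriv F x / F x) (ball c r) :=
    (hF.deriv isOpen_ball).div hF h0
  obtain ⟨g, hg⟩ := h1.isExactOn_ball.with_val_at c (Complex.log (F c))
  have hgd : ∀ x ∈ ball c r, HasDerivAt g (deriv F x / F x) x := hg.2
  have hgc : g c = Complex.log (F c) := hg.1
  refine ⟨g, fun x hx => (hgd x hx).differentiableAt.differentiableWithinAt, fun x hx => ?_⟩
  have hFd : ∀ y ∈ ball c r, HasDerivAt F (deriv F y) y := fun y hy =>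
    ((hF y hy).differentiableAt (isOpen_ball.mem_nhds hy)).hasDerivAt
  have h2 : ∀ y ∈ ball c r, HasDerivAt (fun y => Complex.exp (-g y) * F y) 0 y := by
    intro y hy
    have h3 := ((hgd y hy).neg.cexp).mul (hFd y hy)
    have h4 : Complex.exp (-g y) * -(deriv F y / F y) * F y + Complex.exp (-g y) * deriv F y = 0 := by
      have := h0 y hy
      field_simp
      ring
    rw [← h4]
    exact h3
  have h3 : Complex.exp (-g x) * F x = Complex.exp (-g c) * F c := by
    refine isOpen_ball.is_const_of_deriv_eq_zero (convex_ball c r).isPreconnected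
      (f := fun y => Complex.exp (-g y) * F y)
      (fun y hy => (h2 y hy).differentiableAt.differentiableWithinAt)
      (fun y hy => (h2 y hy).deriv) hx hc
  have h4 : Complex.exp (-g c) * F c = 1 := by
    rw [Complex.exp_neg, hgc, Complex.exp_log (h0 c hc), inv_mul_cancel₀ (h0 c hc)]
  rw [h4, Complex.exp_neg] at h3
  have h5 := Complex.exp_ne_zero (g x)
  field_simp at h3
  exact h3.symm

/-- a weak form of Bloch's theorem -/
theorem bloch {k : ℂ → ℂ} {c : ℂ} {r M : ℝ} (hr : 0 < r) (hM : 0 < M)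
    (hk : DifferentiableOn ℂ k (ball c r))
    (hnet : ∀ w : ℂ, ∃ w' : ℂ, dist w' w ≤ M ∧ w' ∉ k '' ball c r) :
    ‖deriv k c‖ ≤ 256 * M / r := by
  by_contra hcon
  push Not at hcon
  have hkd : DifferentiableOn ℂ (deriv k) (ball c r) := hk.deriv isOpen_ball
  have hsub : closedBall c (r / 2) ⊆ ball c r := closedBall_subset_ball (by linarith)
  obtain ⟨φ, hφ⟩ : ∃ φ : ℂ → ℝ, φ = fun x => ‖deriv k x‖ * (r / 2 - dist x c) := ⟨_, rfl⟩
  have hcont : ContinuousOn φ (closedBall c (r / 2)) := by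
    rw [hφ]
    refine ((hkd.continuousOn.mono hsub).norm).mul ?_
    fun_prop
  obtain ⟨q, hq, hmax⟩ := (isCompact_closedBall c (r / 2)).exists_isMaxOn
    ⟨c, mem_closedBall_self (by linarith)⟩ hcont
  have hN : φ c ≤ φ q := hmax (mem_closedBall_self (by linarith))
  have hφc : φ c = ‖deriv k c‖ * (r / 2) := by rw [hφ]; simp
  have hpos : 128 * M < φ c := by
    rw [hφc]
    have h1 : 256 * M < ‖deriv k c‖ * r := by
      rwa [div_lt_iff₀ hr] at hcon
    linarith
  obtain ⟨a, ha⟩ : ∃ a, a = ‖deriv k q‖ := ⟨_, rfl⟩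
  obtain ⟨t, ht⟩ : ∃ t, t = (r / 2 - dist q c) / 2 := ⟨_, rfl⟩
  have hφq : φ q = a * (2 * t) := by rw [hφ, ha, ht]; ring
  have ha0 : 0 ≤ a := by rw [ha]; exact norm_nonneg _
  have hat : 64 * M < a * t := by
    rw [hφq] at hN
    linarith
  have ht0 : 0 < t := by
    by_contra h
    push Not at h
    have : a * t ≤ 0 := mul_nonpos_of_nonneg_of_nonpos ha0 h
    linarith
  have ha1 : 0 < a := by
    rcases ha0.lt_or_eq with h | h
    · exact h
    · rw [← h, zero_mul] at hat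
      linarith
  have hball : ball q t ⊆ closedBall c (r / 2) := by
    intro x hx
    rw [mem_ball] at hx
    rw [mem_closedBall]
    have := dist_triangle x q c
    rw [ht] at hx
    have : dist x q < (r / 2 - dist q c) / 2 := hx
    have h3 : 0 < r / 2 - dist q c := by rw [ht] at ht0; linarith
    linarith
  have hder : ∀ x ∈ ball q t, ‖deriv k x‖ ≤ 2 * a := by
    intro x hx
    have h1 : φ x ≤ φ q := hmax (hball hx)
    rw [hφq, hφ] at h1
    dsimp only at h1
    have h2 : t ≤ r / 2 - dist x c := by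
      rw [mem_ball] at hx
      have := dist_triangle x q c
      have h3 : dist q c = r / 2 - 2 * t := by rw [ht]; ring
      linarith
    have h3 : ‖deriv k x‖ * t ≤ a * (2 * t) :=
      (mul_le_mul_of_nonneg_left h2 (norm_nonneg _)).trans h1
    have h4 : ‖deriv k x‖ * t ≤ (2 * a) * t := by linarith
    exact le_of_mul_le_mul_right h4 ht0
  have hbr : ball q t ⊆ ball c r := hball.trans hsub
  have hschw : ∀ x ∈ ball q t, ‖deriv k x - deriv k q‖ ≤ 3 * a / t * ‖x - q‖ := by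
    intro x hx
    have h1 := Complex.dist_le_div_mul_dist_of_mapsTo_ball (f := deriv k) (c := q) (R₁ := t)
      (R₂ := 3 * a) (z := x) (hkd.mono hbr) (by
        intro y hy
        rw [mem_closedBall, dist_eq_norm]
        refine (norm_sub_le _ _).trans ?_
        have := hder y hy
        rw [← ha]
        linarith) hx
    rwa [dist_eq_norm, dist_eq_norm] at h1
  obtain ⟨ρ, hρ⟩ : ∃ ρ, ρ = t / 6 := ⟨_, rfl⟩
  have hρ0 : 0 < ρ := by rw [hρ]; positivity
  have hρt : closedBall q ρ ⊆ ball q t := closedBall_subset_ball (by rw [hρ]; linarith)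
  have hkder : ∀ x ∈ ball c r, HasDerivAt k (deriv k x) x := fun x hx =>
    ((hk x hx).differentiableAt (isOpen_ball.mem_nhds hx)).hasDerivAt
  have hmv : ∀ x ∈ closedBall q ρ, ‖(k x - deriv k q * x) - (k q - deriv k q * q)‖ ≤
      a / 2 * ‖x - q‖ := by
    intro x hx
    refine (convex_closedBall q ρ).norm_image_sub_le_of_norm_hasDerivWithin_le
      (f := fun x => k x - deriv k q * x) (f' := fun x => deriv k x - deriv k q)
      (fun y hy => ?_) (fun y hy => ?_) (mem_closedBall_self hρ0.le) hx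
    · have h1 := (hkder y (hbr (hρt hy))).sub ((hasDerivAt_id y).const_mul (deriv k q))
      simp only [mul_one] at h1
      exact h1.hasDerivWithinAt
    · refine (hschw y (hρt hy)).trans ?_
      have h2 : ‖y - q‖ ≤ t / 6 := by
        rw [← dist_eq_norm, ← hρ]
        exact hy
      calc 3 * a / t * ‖y - q‖ ≤ 3 * a / t * (t / 6) := by gcongr
        _ = a / 2 := by field_simp; ring
  have hsphere : ∀ x ∈ sphere q ρ, a * ρ / 2 ≤ ‖k x - k q‖ := by
    intro x hx
    have h1 := hmv x (sphere_subset_closedBall hx)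
    have h2 : ‖x - q‖ = ρ := by rw [← dist_eq_norm]; exact hx
    have h3 : deriv k q * (x - q) =
        (k x - k q) - ((k x - deriv k q * x) - (k q - deriv k q * q)) := by ring
    have h4 : ‖deriv k q * (x - q)‖ ≤ ‖k x - k q‖ + a / 2 * ‖x - q‖ := by
      rw [h3]
      exact (norm_sub_le _ _).trans (by linarith)
    rw [norm_mul, ← ha, h2] at h4
    linarith
  have hfreq : ∃ᶠ z in nhds q, k z ≠ k q := by
    rw [Filter.frequently_iff]
    intro U hU
    by_contra hno
    push Not at hno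
    have h1 : k =ᶠ[nhds q] fun _ => k q := Filter.eventually_of_mem hU hno
    have h2 : deriv k q = 0 := by
      rw [h1.deriv_eq]
      simp
    rw [h2, norm_zero] at ha
    linarith
  have himg := (DifferentiableOn.diffContOnCl (f := k) (s := ball q ρ) (by
    rw [closure_ball q hρ0.ne']
    exact (hk.mono (hρt.trans hbr)))).ball_subset_image_closedBall hρ0 hsphere hfreq
  obtain ⟨w', hw1, hw2⟩ := hnet (k q)
  apply hw2
  have h5 : w' ∈ ball (k q) (a * ρ / 2 / 2) := by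
    rw [mem_ball]
    refine lt_of_le_of_lt hw1 ?_
    rw [hρ]
    linarith
  exact image_mono (hρt.trans hbr) (himg h5)

/-- the points at which `cosh` is an odd integer form a net -/
theorem net (w : ℂ) : ∃ w' : ℂ, dist w' w ≤ 5 ∧ ∃ j : ℤ, Complex.cosh w' = 2 * j - 1 := by
  obtain ⟨x₀, hx₀⟩ : ∃ x₀, x₀ = |w.re| := ⟨_, rfl⟩
  have hx0 : 0 ≤ x₀ := by rw [hx₀]; exact abs_nonneg _
  obtain ⟨m, hm⟩ : ∃ m : ℤ, m = round (w.im / Real.pi) := ⟨_, rfl⟩
  have hpi := Real.pi_pos
  have hpi4 := Real.pi_le_four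
  have him : |Real.pi * m - w.im| ≤ 2 := by
    have h1 := abs_sub_round (w.im / Real.pi)
    rw [← hm] at h1
    have h2 : Real.pi * m - w.im = -(Real.pi * (w.im / Real.pi - m)) := by
      field_simp
      ring
    rw [h2, abs_neg, abs_mul, abs_of_pos hpi]
    calc Real.pi * |w.im / Real.pi - m| ≤ 4 * (1 / 2) := by gcongr
      _ = 2 := by norm_num
  obtain ⟨n, hn⟩ : ∃ n : ℤ, n = ⌈(Real.cosh x₀ + 1) / 2⌉ := ⟨_, rfl⟩
  have hn1 : Real.cosh x₀ ≤ 2 * n - 1 := by
    have := Int.le_ceil ((Real.cosh x₀ + 1) / 2)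
    rw [← hn] at this
    linarith
  have hn2 : (2 * n - 1 : ℝ) ≤ Real.cosh (x₀ + 3) := by
    have h1 := Int.ceil_lt_add_one ((Real.cosh x₀ + 1) / 2)
    rw [← hn] at h1
    have h2 : (6 : ℝ) ≤ Real.exp 3 := by
      have := Real.quadratic_le_exp_of_nonneg (x := 3) (by norm_num)
      linarith
    have h3 : (3 : ℝ) ≤ Real.cosh 3 := by
      rw [Real.cosh_eq]
      have := Real.exp_pos (-3)
      linarith
    have h4 : 1 ≤ Real.cosh x₀ := Real.one_le_cosh x₀
    have h5 : 0 ≤ Real.sinh x₀ := Real.sinh_nonneg_iff.2 hx0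
    have h6 : 0 ≤ Real.sinh 3 := Real.sinh_nonneg_iff.2 (by norm_num)
    rw [Real.cosh_add]
    nlinarith [mul_nonneg h5 h6]
  obtain ⟨x₁, ⟨hx1, hx2⟩, hx3⟩ := intermediate_value_Icc (f := Real.cosh)
    (show x₀ ≤ x₀ + 3 by linarith) Real.continuous_cosh.continuousOn ⟨hn1, hn2⟩
  -- the cosine of `π m`
  have hcos : ∀ y : ℝ, Real.cosh y = 2 * n - 1 → ∃ j : ℤ,
      Complex.cosh ((y : ℂ) + (Real.pi * m : ℝ) * Complex.I) = 2 * j - 1 := by
    intro y hy
    have hc : Complex.cosh ((y : ℂ) + (Real.pi * m : ℝ) * Complex.I) =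
        ((Real.cosh y * Real.cos (m * Real.pi) : ℝ) : ℂ) := by
      rw [Complex.cosh_add, Complex.cosh_mul_I, Complex.sinh_mul_I, mul_comm Real.pi,
        ← Complex.ofReal_cos, ← Complex.ofReal_sin, Real.sin_int_mul_pi, ← Complex.ofReal_cosh]
      push_cast
      ring
    rw [hc, hy]
    rcases Int.even_or_odd m with h | h
    · refine ⟨n, ?_⟩
      rw [Real.cos_int_mul_pi, h.neg_one_zpow]
      push_cast
      ring
    · refine ⟨1 - n, ?_⟩
      rw [Real.cos_int_mul_pi, h.neg_one_zpow]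
      push_cast
      ring
  have hdist : ∀ y : ℝ, |y - w.re| ≤ 3 →
      dist ((y : ℂ) + (Real.pi * m : ℝ) * Complex.I) w ≤ 5 := by
    intro y hy
    rw [dist_eq_norm]
    refine (Complex.norm_le_abs_re_add_abs_im _).trans ?_
    have h1 : ((y : ℂ) + (Real.pi * m : ℝ) * Complex.I - w).re = y - w.re := by simp
    have h2 : ((y : ℂ) + (Real.pi * m : ℝ) * Complex.I - w).im = Real.pi * m - w.im := by simp
    rw [h1, h2]
    linarith
  rcases le_total 0 w.re with h | h
  · refine ⟨(x₁ : ℂ) + (Real.pi * m : ℝ) * Complex.I, hdist x₁ ?_, hcos x₁ hx3⟩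
    rw [abs_of_nonneg h] at hx₀
    rw [abs_le]
    constructor <;> linarith
  · refine ⟨((-x₁ : ℝ) : ℂ) + (Real.pi * m : ℝ) * Complex.I, hdist (-x₁) ?_,
      hcos (-x₁) (by rw [Real.cosh_neg]; exact hx3)⟩
    rw [abs_of_nonpos h] at hx₀
    rw [abs_le]
    constructor <;> linarith

/-- **Landau's theorem.** -/
theorem landau : ∃ C : ℝ, ∀ (F : ℂ → ℂ) (c : ℂ) (r : ℝ), 0 < r →
    DifferentiableOn ℂ F (ball c r) → (∀ x ∈ ball c r, F x ≠ 0) → (∀ x ∈ ball c r, F x ≠ 1) →
    F c = 2 → ‖deriv F c‖ ≤ C / r := by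
  obtain ⟨T, hT⟩ : ∃ T : ℂ, T = 2 * Real.pi * Complex.I := ⟨_, rfl⟩
  have hT0 : T ≠ 0 := by rw [hT]; exact Complex.two_pi_I_ne_zero
  obtain ⟨L, hL⟩ : ∃ L : ℂ, L = Complex.log 2 / T := ⟨_, rfl⟩
  refine ⟨2 * ‖T‖ * (‖(2 * L - 1) ^ 2 - 1‖ + 1) * 1280, fun F c r hr hF h0 h1 hc => ?_⟩
  have hcm : c ∈ ball c r := mem_ball_self hr
  obtain ⟨H, hH, hHF⟩ := exists_log hr hF h0
  obtain ⟨n, hn⟩ : ∃ n : ℤ, H c = Complex.log 2 + n * T := by
    have h2 : Complex.exp (H c) = Complex.exp (Complex.log 2) := by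
      rw [hHF c hcm, hc, Complex.exp_log (by norm_num)]
    obtain ⟨n, hn⟩ := Complex.exp_eq_exp_iff_exists_int.1 h2
    exact ⟨n, by rw [hn, hT]⟩
  obtain ⟨h, hh⟩ : ∃ h : ℂ → ℂ, h = fun x => (H x - n * T) / T := ⟨_, rfl⟩
  have hhd : DifferentiableOn ℂ h (ball c r) := by
    rw [hh]
    exact (hH.sub_const _).div_const _
  have hhF : ∀ x ∈ ball c r, Complex.exp (T * h x) = F x := by
    intro x hx
    have h2 : T * h x = H x - n * T := by
      rw [hh]
      field_simp
    rw [h2, Complex.exp_sub, hT, Complex.exp_int_mul_two_pi_mul_I, div_one, hHF x hx]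
  have hhc : h c = L := by
    rw [hh, hL]
    dsimp only
    rw [hn]
    ring
  have hhj : ∀ x ∈ ball c r, ∀ j : ℤ, h x ≠ j := by
    intro x hx j hj
    apply h1 x hx
    rw [← hhF x hx, hj, mul_comm, hT, Complex.exp_int_mul_two_pi_mul_I]
  have hu0 : ∀ x ∈ ball c r, h x * (h x - 1) ≠ 0 := by
    intro x hx h2
    rcases mul_eq_zero.1 h2 with h3 | h3
    · exact hhj x hx 0 (by rw [h3]; simp)
    · exact hhj x hx 1 (by rw [sub_eq_zero.1 h3]; simp)
  obtain ⟨l, hl, hlu⟩ := exists_log hr (hhd.mul (hhd.sub_const 1)) hu0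
  obtain ⟨s, hs⟩ : ∃ s : ℂ → ℂ, s = fun x => Complex.exp (l x / 2) := ⟨_, rfl⟩
  have hsd : DifferentiableOn ℂ s (ball c r) := by
    rw [hs]
    exact (hl.div_const 2).cexp
  have hs2 : ∀ x ∈ ball c r, s x ^ 2 = h x * (h x - 1) := by
    intro x hx
    have h2 := hlu x hx
    simp only [Pi.mul_apply] at h2
    rw [← h2, hs]
    dsimp only
    rw [← Complex.exp_nat_mul]
    congr 1
    push_cast
    ring
  obtain ⟨v, hv⟩ : ∃ v : ℂ → ℂ, v = fun x => 2 * h x - 1 + 2 * s x := ⟨_, rfl⟩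
  have hvd : DifferentiableOn ℂ v (ball c r) := by
    rw [hv]
    exact ((hhd.const_mul 2).sub_const 1).add (hsd.const_mul 2)
  have hv1 : ∀ x ∈ ball c r, v x * (2 * h x - 1 - 2 * s x) = 1 := by
    intro x hx
    have h2 := hs2 x hx
    rw [hv]
    linear_combination (-4) * h2
  have hv0 : ∀ x ∈ ball c r, v x ≠ 0 := by
    intro x hx h2
    have h3 := hv1 x hx
    rw [h2, zero_mul] at h3
    exact zero_ne_one h3
  obtain ⟨k, hk, hkv⟩ := exists_log hr hvd hv0
  have hcosh : ∀ x ∈ ball c r, Complex.cosh (k x) = 2 * h x - 1 := by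
    intro x hx
    have h2 : Complex.exp (-k x) = 2 * h x - 1 - 2 * s x := by
      rw [Complex.exp_neg, hkv x hx]
      exact inv_eq_of_mul_eq_one_right (hv1 x hx)
    rw [Complex.cosh, hkv x hx, h2, hv]
    ring
  have hbl := bloch (M := 5) hr (by norm_num) hk (by
    intro w
    obtain ⟨w', hw1, j, hw2⟩ := net w
    refine ⟨w', hw1, ?_⟩
    rintro ⟨x, hx, hxw⟩
    apply hhj x hx j
    have h2 := hcosh x hx
    rw [hxw, hw2] at h2
    linear_combination (-1 / 2) * h2)
  have hkc : HasDerivAt k (deriv k c) c :=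
    ((hk c hcm).differentiableAt (isOpen_ball.mem_nhds hcm)).hasDerivAt
  have hFeq : F =ᶠ[nhds c] fun x => Complex.exp (T * ((Complex.cosh (k x) + 1) / 2)) := by
    filter_upwards [isOpen_ball.mem_nhds hcm] with x hx
    rw [hcosh x hx, ← hhF x hx]
    congr 1
    ring
  have hder : HasDerivAt (fun x => Complex.exp (T * ((Complex.cosh (k x) + 1) / 2)))
      (Complex.exp (T * ((Complex.cosh (k c) + 1) / 2)) *
        (T * (Complex.sinh (k c) * deriv k c / 2))) c := by
    exact ((((hkc.ccosh).add_const 1).div_const 2).const_mul T).cexp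
  have h5 : Complex.exp (T * ((Complex.cosh (k c) + 1) / 2)) = 2 := by
    exact hFeq.self_of_nhds.symm.trans hc
  rw [hFeq.deriv_eq, hder.deriv, h5]
  have hsinh : ‖Complex.sinh (k c)‖ ≤ ‖(2 * L - 1) ^ 2 - 1‖ + 1 := by
    have h6 : Complex.sinh (k c) ^ 2 = (2 * L - 1) ^ 2 - 1 := by
      rw [← hhc, ← hcosh c hcm, Complex.cosh_sq]
      ring
    rw [← h6, norm_pow]
    nlinarith [sq_nonneg (‖Complex.sinh (k c)‖ - 1), norm_nonneg (Complex.sinh (k c))]
  rw [norm_mul, norm_mul, norm_div, norm_mul]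
  have h7 : (0 : ℝ) ≤ ‖T‖ := norm_nonneg _
  have h8 : ‖(2 : ℂ)‖ = 2 := by simp
  rw [h8]
  have h9 : ‖Complex.sinh (k c)‖ * ‖deriv k c‖ ≤
      (‖(2 * L - 1) ^ 2 - 1‖ + 1) * (256 * 5 / r) :=
    mul_le_mul hsinh hbl (norm_nonneg _) (by positivity)
  calc 2 * (‖T‖ * (‖Complex.sinh (k c)‖ * ‖deriv k c‖ / 2))
      = ‖T‖ * (‖Complex.sinh (k c)‖ * ‖deriv k c‖) := by ring
    _ ≤ ‖T‖ * ((‖(2 * L - 1) ^ 2 - 1‖ + 1) * (256 * 5 / r)) := by gcongr
    _ ≤ 2 * (‖T‖ * ((‖(2 * L - 1) ^ 2 - 1‖ + 1) * (256 * 5 / r))) := by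
      have : 0 ≤ ‖T‖ * ((‖(2 * L - 1) ^ 2 - 1‖ + 1) * (256 * 5 / r)) := by positivity
      linarith
    _ = 2 * ‖T‖ * (‖(2 * L - 1) ^ 2 - 1‖ + 1) * 1280 / r := by ring

end Pool.Agent.Y544.HD
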